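import Pool.Agent.Lib.MP_b4205f_al.CH.Defs
import Mathlib

/-!
Project CHAIN (MP_b4205f_al): module VOL.
-/

namespace Pool.Agent.Lib.MP_b4205f_al.H97

open MeasureTheory Pool.Agent.Lib.MP_b4205f_al.CH Set

/-- The admissible exponents. -/
def Cn (p n : ℕ) (y t : ℝ) (m : ℤ) : Prop :=
  |y| ≤ |t + (p : ℝ) * (m : ℝ) * y| ∧ |t + (p : ℝ) * (m : ℝ) * y| ≤ (n : ℝ) ^ 2

open Classical in
theorem cnt_pos (p n : ℕ) (hp : 2 ≤ p) (hn : 2 ≤ n) (y t : ℝ) (hy : 1 < y) (hyM : (p : ℝ) * y ≤ (n : ℝ) ^ 2)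
    (ht : |t| < y) :
    2 * (n : ℝ) ^ 2 / (p * y) - 2 ≤
      (((Finset.Icc (-(BB n : ℤ)) (BB n : ℤ)).filter (Cn p n y t)).card : ℝ) := by
  have hp2 : (2 : ℝ) ≤ p := by exact_mod_cast hp
  have hn2 : (2 : ℝ) ≤ n := by exact_mod_cast hn
  have hpy : 0 < (p : ℝ) * y := by positivity
  rw [abs_lt] at ht
  have h2y : 2 * y ≤ p * y := by nlinarith
  set a : ℤ := ⌊((n : ℝ) ^ 2 - t) / (p * y)⌋ with ha
  set b : ℤ := ⌊((n : ℝ) ^ 2 + t) / (p * y)⌋ with hb
  have ha1 : (a : ℝ) * (p * y) ≤ (n : ℝ) ^ 2 - t := by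
    rw [← le_div_iff₀ hpy]; exact Int.floor_le _
  have hb1 : (b : ℝ) * (p * y) ≤ (n : ℝ) ^ 2 + t := by
    rw [← le_div_iff₀ hpy]; exact Int.floor_le _
  have ha2 : ((n : ℝ) ^ 2 - t) / (p * y) < a + 1 := Int.lt_floor_add_one _
  have hb2 : ((n : ℝ) ^ 2 + t) / (p * y) < b + 1 := Int.lt_floor_add_one _
  have ha0 : 0 ≤ a := Int.floor_nonneg.2 (div_nonneg (by linarith) hpy.le)
  have hb0 : 0 ≤ b := Int.floor_nonneg.2 (div_nonneg (by linarith) hpy.le)
  have hpy2 : 2 ≤ (p : ℝ) * y := by nlinarith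
  have hn4 : (n : ℝ) ^ 2 ≤ (n : ℝ) ^ 4 := by
    have : (1 : ℝ) ≤ (n : ℝ) ^ 2 := by nlinarith
    nlinarith
  have key : ∀ c : ℤ, 0 ≤ c → (c : ℝ) * (p * y) ≤ (n : ℝ) ^ 2 + |t| → c ≤ (BB n : ℤ) := by
    intro c hc h
    have habs : |t| < y := abs_lt.2 ht
    have hc' : (0 : ℝ) ≤ c := by exact_mod_cast hc
    have h3 : (c : ℝ) * 2 ≤ (c : ℝ) * (p * y) := mul_le_mul_of_nonneg_left hpy2 hc'
    have h4 : (n : ℝ) ^ 2 + |t| ≤ 2 * (n : ℝ) ^ 2 := by linarith
    have h5 : (c : ℝ) ≤ (n : ℝ) ^ 4 := by linarith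
    have h6 : (c : ℝ) ≤ ((BB n : ℕ) : ℤ) := by
      unfold BB; push_cast; linarith
    exact_mod_cast h6
  have haB : a ≤ (BB n : ℤ) := key a ha0 (ha1.trans (by
    have := neg_abs_le t
    linarith))
  have hbB : b ≤ (BB n : ℤ) := key b hb0 (hb1.trans (by
    have := le_abs_self t
    linarith))
  have hsub : Finset.Icc 1 a ∪ Finset.Icc (-b) (-1) ⊆
      (Finset.Icc (-(BB n : ℤ)) (BB n : ℤ)).filter (Cn p n y t) := by
    intro m hm
    rw [Finset.mem_union, Finset.mem_Icc, Finset.mem_Icc] at hm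
    rw [Finset.mem_filter, Finset.mem_Icc]
    have habsy : |y| = y := abs_of_pos (by linarith)
    rcases hm with ⟨h1, h2⟩ | ⟨h1, h2⟩
    · refine ⟨⟨by omega, by omega⟩, ?_⟩
      have h1' : (1 : ℝ) ≤ m := by exact_mod_cast h1
      have h2' : (m : ℝ) ≤ a := by exact_mod_cast h2
      have e1 : (p : ℝ) * m * y = m * (p * y) := by ring
      have e2 : 1 * (p * y) ≤ (m : ℝ) * (p * y) := mul_le_mul_of_nonneg_right h1' hpy.le
      have e3 : (m : ℝ) * (p * y) ≤ a * (p * y) := mul_le_mul_of_nonneg_right h2' hpy.le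
      have e4 : 0 ≤ t + (p : ℝ) * m * y := by linarith
      unfold Cn
      rw [abs_of_nonneg e4, habsy]
      constructor <;> linarith
    · refine ⟨⟨by omega, by omega⟩, ?_⟩
      have h1' : -(b : ℝ) ≤ m := by exact_mod_cast h1
      have h2' : (m : ℝ) ≤ -1 := by exact_mod_cast h2
      have e1 : (p : ℝ) * m * y = m * (p * y) := by ring
      have e2 : (m : ℝ) * (p * y) ≤ -1 * (p * y) := mul_le_mul_of_nonneg_right h2' hpy.le
      have e3 : -(b : ℝ) * (p * y) ≤ m * (p * y) := mul_le_mul_of_nonneg_right h1' hpy.le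
      have e4 : t + (p : ℝ) * m * y ≤ 0 := by linarith
      unfold Cn
      rw [abs_of_nonpos e4, habsy]
      constructor <;> linarith
  have hdis : Disjoint (Finset.Icc 1 a) (Finset.Icc (-b) (-1)) := by
    rw [Finset.disjoint_left]
    intro m h1 h2
    rw [Finset.mem_Icc] at h1 h2
    omega
  have hcard := Finset.card_le_card hsub
  rw [Finset.card_union_of_disjoint hdis, Int.card_Icc, Int.card_Icc] at hcard
  have hc2 : a + b ≤ (((Finset.Icc (-(BB n : ℤ)) (BB n : ℤ)).filter (Cn p n y t)).card : ℤ) := by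
    omega
  have hc3 : (a : ℝ) + b ≤ (((Finset.Icc (-(BB n : ℤ)) (BB n : ℤ)).filter (Cn p n y t)).card : ℝ) := by
    exact_mod_cast hc2
  have e : 2 * (n : ℝ) ^ 2 / (p * y) = ((n : ℝ) ^ 2 - t) / (p * y) + ((n : ℝ) ^ 2 + t) / (p * y) := by
    rw [← add_div]; ring
  rw [e]
  linarith

open Classical in
theorem cnt (p n : ℕ) (hp : 2 ≤ p) (hn : 2 ≤ n) (y t : ℝ) (hy : 1 < |y|)
    (hyM : (p : ℝ) * |y| ≤ (n : ℝ) ^ 2) (ht : |t| < |y|) :
    2 * (n : ℝ) ^ 2 / (p * |y|) - 2 ≤
      (((Finset.Icc (-(BB n : ℤ)) (BB n : ℤ)).filter (Cn p n y t)).card : ℝ) := by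
  rcases le_or_gt 0 y with h | h
  · rw [abs_of_nonneg h] at hy hyM ht ⊢
    exact cnt_pos p n hp hn y t hy hyM ht
  · rw [abs_of_neg h] at hy hyM ht ⊢
    have h1 := cnt_pos p n hp hn (-y) t hy hyM ht
    refine h1.trans ?_
    have : ((Finset.Icc (-(BB n : ℤ)) (BB n : ℤ)).filter (Cn p n (-y) t)).card ≤
        ((Finset.Icc (-(BB n : ℤ)) (BB n : ℤ)).filter (Cn p n y t)).card := by
      refine Finset.card_le_card_of_injOn (fun m => -m) ?_ ?_
      · intro m hm
        simp only [Finset.coe_filter, Finset.mem_Icc, mem_setOf_eq] at hm ⊢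
        refine ⟨by omega, ?_⟩
        have h2 := hm.2
        unfold Cn at h2 ⊢
        have e : t + (p : ℝ) * ((-m : ℤ) : ℝ) * y = t + (p : ℝ) * (m : ℝ) * -y := by
          push_cast; ring
        rw [e]
        rw [abs_neg] at h2
        exact h2
      · intro m _ m' _ h
        simpa using h
    exact_mod_cast this

theorem preim (a b : ℝ) (ha : 0 < a) (A : Set ℝ) :
    volume ((fun x : ℝ => a * x - b) ⁻¹' A) = ENNReal.ofReal (a⁻¹) * volume A := by
  have h1 : (fun x : ℝ => a * x - b) ⁻¹' A = (fun x : ℝ => a * x) ⁻¹' ((fun x : ℝ => x + -b) ⁻¹' A) := by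
    ext x
    simp [sub_eq_add_neg]
  rw [h1, Real.volume_preimage_mul_left ha.ne', measure_preimage_add_right,
    abs_of_pos (inv_pos.2 ha)]

theorem section_le (h2 : MEAS_S) (p n K : ℕ) (hp : 2 ≤ p) (hn : 2 ≤ n) (y : ℝ) :
    ENNReal.ofReal (ph p n |y|) * volume {t : ℝ | HH p n K y t} ≤
      volume {x : ℝ | RR p n K x y} := by
  classical
  obtain ⟨m1, -, -, m4⟩ := h2 p n K
  have hp2 : (2 : ℝ) ≤ p := by exact_mod_cast hp
  have hn2 : (2 : ℝ) ≤ n := by exact_mod_cast hn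
  rcases le_or_gt |y| 1 with hy | hy
  · have : {t : ℝ | HH p n K y t} = ∅ := by
      ext t
      simp only [mem_setOf_eq, mem_empty_iff_false, iff_false]
      intro h
      have := (m4 _ _ h).1
      linarith
    rw [this, measure_empty, mul_zero]
    exact bot_le
  rcases lt_or_ge (MM p n) |y| with hM | hM
  · have : ph p n |y| = 0 := by
      unfold ph
      rw [if_neg (not_le.2 hM)]
    rw [this]
    simp
  have hn0 : (0 : ℝ) < (n : ℝ) ^ 2 := by positivity
  have hpM : (p : ℝ) * |y| ≤ (n : ℝ) ^ 2 := by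
    unfold MM at hM
    rw [le_div_iff₀ (by linarith)] at hM
    linarith
  set A : ℤ → Set ℝ := fun m => {t : ℝ | HH p n K y t ∧ Cn p n y t m} with hA
  have hT : MeasurableSet {t : ℝ | HH p n K y t} := by
    have : Measurable (fun t : ℝ => (y, t)) := by fun_prop
    exact this m1
  have hAm : ∀ m, MeasurableSet (A m) := by
    intro m
    refine hT.inter ?_
    have e : {t : ℝ | Cn p n y t m} = {t : ℝ | |y| ≤ |t + (p : ℝ) * (m : ℝ) * y|} ∩
        {t : ℝ | |t + (p : ℝ) * (m : ℝ) * y| ≤ (n : ℝ) ^ 2} := rfl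
    have c1 : Measurable fun t : ℝ => |t + (p : ℝ) * (m : ℝ) * y| := by fun_prop
    show MeasurableSet {t : ℝ | Cn p n y t m}
    rw [e]
    exact (measurableSet_le measurable_const c1).inter (measurableSet_le c1 measurable_const)
  set E : ℤ → Set ℝ := fun m => (fun x : ℝ => (n : ℝ) ^ 2 * x - (p : ℝ) * (m : ℝ) * y) ⁻¹' A m with hE
  have hEm : ∀ m, MeasurableSet (E m) := by
    intro m
    have : Measurable (fun x : ℝ => (n : ℝ) ^ 2 * x - (p : ℝ) * (m : ℝ) * y) := by fun_prop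
    exact this (hAm m)
  set I := Finset.Icc (-(BB n : ℤ)) (BB n : ℤ) with hI
  have hsub : (⋃ m ∈ I, E m) ⊆ {x : ℝ | RR p n K x y} := by
    intro x hx
    simp only [mem_iUnion] at hx
    obtain ⟨m, hm, hxm⟩ := hx
    obtain ⟨q1, q2, q3⟩ := hxm
    have e : (n : ℝ) ^ 2 * x - (p : ℝ) * (m : ℝ) * y + (p : ℝ) * (m : ℝ) * y = (n : ℝ) ^ 2 * x := by
      ring
    simp only [e] at q2 q3
    rw [abs_mul, abs_of_pos hn0] at q2 q3
    refine ⟨?_, ?_, hy, q2, m, hm, q1⟩
    · by_contra h0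
      have : |x| = 0 := le_antisymm (not_lt.1 h0) (abs_nonneg _)
      rw [this, mul_zero] at q2
      linarith
    · by_contra h0
      have h3 : 1 < |x| := not_le.1 h0
      have : (n : ℝ) ^ 2 * 1 < (n : ℝ) ^ 2 * |x| := mul_lt_mul_of_pos_left h3 hn0
      linarith
  have hdisj : Set.PairwiseDisjoint (↑I) E := by
    intro m _ m' _ hne
    rw [Function.onFun, Set.disjoint_left]
    intro x hx hx'
    apply hne
    have q1 := (m4 _ _ hx.1).2.2
    have q2 := (m4 _ _ hx'.1).2.2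
    by_contra hmm
    have h3 : (1 : ℝ) ≤ |(m : ℝ) - m'| := by
      have : (1 : ℤ) ≤ |m - m'| := Int.one_le_abs (sub_ne_zero.2 hmm)
      exact_mod_cast this
    have h4 : |((m : ℝ) - m') * (p * y)| < |y| + |y| := by
      have e : ((m : ℝ) - m') * (p * y) = ((n : ℝ) ^ 2 * x - (p : ℝ) * (m' : ℝ) * y) -
        ((n : ℝ) ^ 2 * x - (p : ℝ) * (m : ℝ) * y) := by ring
      rw [e]
      exact (abs_sub _ _).trans_lt (add_lt_add q2 q1)
    rw [abs_mul, abs_mul, abs_of_pos (by linarith : (0 : ℝ) < p)] at h4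
    have h5 : 1 * (2 * |y|) ≤ |(m : ℝ) - m'| * (p * |y|) := by
      apply mul_le_mul h3 _ (by positivity) (abs_nonneg _)
      exact mul_le_mul_of_nonneg_right hp2 (abs_nonneg _)
    linarith
  have step1 : ∑ m ∈ I, volume (E m) ≤ volume {x : ℝ | RR p n K x y} := by
    rw [← measure_biUnion_finset hdisj (fun m _ => hEm m)]
    exact measure_mono hsub
  refine le_trans ?_ step1
  have step2 : ∀ m, volume (E m) = ENNReal.ofReal (((n : ℝ) ^ 2)⁻¹) * volume (A m) := by
    intro m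
    exact preim _ _ hn0 _
  simp only [step2]
  rw [← Finset.mul_sum]
  have step3 : ENNReal.ofReal (2 * (n : ℝ) ^ 2 / (p * |y|) - 2) * volume {t : ℝ | HH p n K y t} ≤
      ∑ m ∈ I, volume (A m) := by
    have e1 : ∑ m ∈ I, volume (A m) = ∫⁻ t, ∑ m ∈ I, (A m).indicator 1 t := by
      rw [lintegral_finset_sum]
      · refine Finset.sum_congr rfl fun m _ => ?_
        rw [lintegral_indicator_one (hAm m)]
      · intro m _
        exact measurable_one.indicator (hAm m)
    rw [e1]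
    have e2 : ENNReal.ofReal (2 * (n : ℝ) ^ 2 / (p * |y|) - 2) * volume {t : ℝ | HH p n K y t} =
        ∫⁻ t, ({t : ℝ | HH p n K y t}).indicator
          (fun _ => ENNReal.ofReal (2 * (n : ℝ) ^ 2 / (p * |y|) - 2)) t := by
      rw [lintegral_indicator hT, lintegral_const, Measure.restrict_apply_univ]
    rw [e2]
    refine lintegral_mono fun t => ?_
    by_cases ht : HH p n K y t
    · have ht' : t ∈ {t : ℝ | HH p n K y t} := ht
      rw [indicator_of_mem ht']
      have e3 : ∑ m ∈ I, (A m).indicator (1 : ℝ → ENNReal) t =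
          ((I.filter (Cn p n y t)).card : ENNReal) := by
        rw [Finset.card_filter]
        push_cast
        refine Finset.sum_congr rfl fun m _ => ?_
        by_cases hc : Cn p n y t m
        · have : t ∈ A m := ⟨ht, hc⟩
          rw [indicator_of_mem this, if_pos hc]; rfl
        · have : t ∉ A m := fun h => hc h.2
          rw [indicator_of_notMem this, if_neg hc]
      rw [e3, ← ENNReal.ofReal_natCast]
      exact ENNReal.ofReal_le_ofReal (cnt p n hp hn y t hy hpM (m4 _ _ ht).2.2)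
    · have ht' : t ∉ {t : ℝ | HH p n K y t} := ht
      rw [indicator_of_notMem ht']
      exact bot_le
  calc ENNReal.ofReal (ph p n |y|) * volume {t : ℝ | HH p n K y t}
      = ENNReal.ofReal (((n : ℝ) ^ 2)⁻¹) * (ENNReal.ofReal (2 * (n : ℝ) ^ 2 / (p * |y|) - 2) *
          volume {t : ℝ | HH p n K y t}) := by
        rw [← mul_assoc, ← ENNReal.ofReal_mul (inv_nonneg.2 hn0.le)]
        congr 2
        unfold ph
        rw [if_pos hM]
        have : (p : ℝ) * |y| ≠ 0 := by positivity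
        field_simp
    _ ≤ _ := by gcongr

theorem vol (h2 : MEAS_S) : VOL_S := by
  intro p n K hp hn _
  obtain ⟨m1, m3, -, -⟩ := h2 p n K
  have hph : Measurable (fun q : ℝ × ℝ => ENNReal.ofReal (ph p n |q.1|)) := by
    apply ENNReal.measurable_ofReal.comp
    have h1 : Measurable (ph p n) := by
      unfold ph
      apply Measurable.ite measurableSet_Iic
      · fun_prop
      · fun_prop
    have h3 : Measurable (fun q : ℝ × ℝ => |q.1|) := by fun_prop
    exact h1.comp h3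
  unfold JJ
  rw [← lintegral_indicator m1, Measure.volume_eq_prod, Measure.prod_apply_symm m3,
    lintegral_prod _ (hph.indicator m1).aemeasurable]
  refine lintegral_mono fun y => ?_
  refine le_trans (le_of_eq ?_) (section_le h2 p n K hp hn y)
  have hT : MeasurableSet {t : ℝ | HH p n K y t} := by
    have : Measurable (fun t : ℝ => (y, t)) := by fun_prop
    exact this m1
  have e : ∀ t : ℝ, ({q : ℝ × ℝ | HH p n K q.1 q.2}).indicator
      (fun q : ℝ × ℝ => ENNReal.ofReal (ph p n |q.1|)) (y, t) =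
      ({t : ℝ | HH p n K y t}).indicator (fun _ => ENNReal.ofReal (ph p n |y|)) t := by
    intro t
    by_cases ht : HH p n K y t
    · have h1 : (y, t) ∈ {q : ℝ × ℝ | HH p n K q.1 q.2} := ht
      have h3 : t ∈ {t : ℝ | HH p n K y t} := ht
      rw [indicator_of_mem h1, indicator_of_mem h3]
    · have h1 : (y, t) ∉ {q : ℝ × ℝ | HH p n K q.1 q.2} := ht
      have h3 : t ∉ {t : ℝ | HH p n K y t} := ht
      rw [indicator_of_notMem h1, indicator_of_notMem h3]
  simp only [e]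
  rw [lintegral_indicator hT, lintegral_const, Measure.restrict_apply_univ]

end Pool.Agent.Lib.MP_b4205f_al.H97
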